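import Pool.Agent.helper92.ISO.SpecC

/-!
# Row iso:LVS (MP_069684_lc): size of the list verifier
-/

set_option autoImplicit false

open Filter Topology

namespace Pool.Agent.ISO

open Pool.Agent.PB

theorem LVS_copy (hSEL : SEL_stmt) {n w M R N s : ℕ} (f : BF (n + w)) (h : M * n ≤ N) (e : Fin M) (hf : Size std f s) :
    Size std (fun Z : Fin (N + (R + M * w)) → Bool =>
      f (Fin.append (fun i : Fin n => Z (Fin.castAdd (R + M * w) (Fin.castLE h (finProdFinEquiv (e, i)))))
        (fun i : Fin w => Z (Fin.natAdd N (Fin.natAdd R (finProdFinEquiv (e, i))))))) (s + (n + w)) := by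
  refine hSEL (N + (R + M * w)) (n + w) s f (fun i Z =>
    Fin.append (fun i : Fin n => Z (Fin.castAdd (R + M * w) (Fin.castLE h (finProdFinEquiv (e, i)))))
        (fun i : Fin w => Z (Fin.natAdd N (Fin.natAdd R (finProdFinEquiv (e, i))))) i) hf ?_
  intro i
  refine Or.inr ?_
  refine Fin.addCases (fun a => ?_) (fun b => ?_) i
  · refine ⟨Fin.castAdd (R + M * w) (Fin.castLE h (finProdFinEquiv (e, a))), ?_⟩
    funext Z
    exact Fin.append_left _ _ a
  · refine ⟨Fin.natAdd N (Fin.natAdd R (finProdFinEquiv (e, b))), ?_⟩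
    funext Z
    exact Fin.append_right _ _ b

theorem LVS_num (n w M R N s Q : ℕ) (hQ : n + w + M + R + N + s + 2 ≤ Q) :
    R * ((R * 2 + 1) + (M * ((w * 2 + 1 + (s + (n + w))) + 1) + 1) + 1 + 1) + 1 ≤ Q ^ 8 := by
  have h2 : 2 ≤ Q := by omega
  have hR : R ≤ Q := by omega
  have hM : M ≤ Q := by omega
  have ht : (w * 2 + 1 + (s + (n + w))) + 1 ≤ 3 * Q := by omega
  have h1 : M * ((w * 2 + 1 + (s + (n + w))) + 1) ≤ Q * (3 * Q) := Nat.mul_le_mul hM ht
  have h3 : (R * 2 + 1) + (M * ((w * 2 + 1 + (s + (n + w))) + 1) + 1) + 1 + 1 ≤ 3 * Q ^ 2 + 2 * Q + 4 := by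
    nlinarith
  have h4 : 3 * Q ^ 2 + 2 * Q + 4 ≤ Q ^ 5 := by
    have a1 : 4 ≤ Q ^ 2 := by nlinarith
    have a2 : 2 * Q ≤ Q ^ 2 := by nlinarith
    have a3 : Q ^ 2 * 8 ≤ Q ^ 2 * Q ^ 3 := by
      apply Nat.mul_le_mul_left
      calc 8 = 2 ^ 3 := by norm_num
        _ ≤ Q ^ 3 := Nat.pow_le_pow_left h2 3
    have a4 : Q ^ 2 * Q ^ 3 = Q ^ 5 := by ring
    omega
  have h5 : R * ((R * 2 + 1) + (M * ((w * 2 + 1 + (s + (n + w))) + 1) + 1) + 1 + 1) ≤ Q * Q ^ 5 :=
    Nat.mul_le_mul hR (h3.trans h4)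
  have h6 : Q * Q ^ 5 + 1 ≤ Q ^ 8 := by
    have b1 : Q * Q ^ 5 = Q ^ 6 := by ring
    have b2 : Q ^ 8 = Q ^ 6 * Q ^ 2 := by ring
    have b3 : 1 ≤ Q ^ 6 := Nat.one_le_pow _ _ (by omega)
    have b4 : 4 ≤ Q ^ 2 := by nlinarith
    rw [b1, b2]
    nlinarith
  omega

theorem LVS_proof (hCIR : CIR_stmt) (hSEL : SEL_stmt) : LVS_stmt := by
  obtain ⟨cvar, ccon, cmono, cnot, cao, call, cex⟩ := hCIR
  intro n w M R N s Q f h K hf hQ
  -- the one-hot test
  have hA : ∀ j : Fin R, Size std (fun Z : Fin (N + (R + M * w)) → Bool =>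
      decide (∀ j' : Fin R, Z (Fin.natAdd N (Fin.castAdd (M * w) j')) = decide (j' = j))) (R * 2 + 1) := by
    intro j
    have h1 := call (Fin R) (N + (R + M * w)) 1
      (fun j' Z => if j' = j then Z (Fin.natAdd N (Fin.castAdd (M * w) j')) else !(Z (Fin.natAdd N (Fin.castAdd (M * w) j'))))
      (fun Z : Fin (N + (R + M * w)) → Bool =>
        decide (∀ j' : Fin R, Z (Fin.natAdd N (Fin.castAdd (M * w) j')) = decide (j' = j))) ?_ ?_
    · rw [Fintype.card_fin] at h1
      exact h1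
    · intro j'
      by_cases hj : j' = j
      · simp only [if_pos hj]
        exact cmono _ 0 1 _ (cvar _ _) (by omega)
      · simp only [if_neg hj]
        exact cnot _ 0 _ (cvar _ _)
    · intro Z
      rw [decide_eq_true_eq]
      refine forall_congr' fun j' => ?_
      by_cases hj : j' = j
      · simp [hj]
      · simp [hj]
  -- one place
  have hB : ∀ (j : Fin R) (e : Fin M), Size std (fun Z : Fin (N + (R + M * w)) → Bool =>
      decide ((j ∈ K e ∧ ∀ i : Fin w, Z (Fin.natAdd N (Fin.natAdd R (finProdFinEquiv (e, i)))) = false) ∨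
      (j ∉ K e ∧ f (Fin.append (fun i : Fin n => Z (Fin.castAdd (R + M * w) (Fin.castLE h (finProdFinEquiv (e, i)))))
        (fun i : Fin w => Z (Fin.natAdd N (Fin.natAdd R (finProdFinEquiv (e, i)))))) = true)))
      (w * 2 + 1 + (s + (n + w))) := by
    intro j e
    by_cases hj : j ∈ K e
    · have h1 := call (Fin w) (N + (R + M * w)) 1
        (fun i Z => !(Z (Fin.natAdd N (Fin.natAdd R (finProdFinEquiv (e, i))))))
        (fun Z : Fin (N + (R + M * w)) → Bool =>
          decide ((j ∈ K e ∧ ∀ i : Fin w, Z (Fin.natAdd N (Fin.natAdd R (finProdFinEquiv (e, i)))) = false) ∨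
            (j ∉ K e ∧ f (Fin.append (fun i : Fin n => Z (Fin.castAdd (R + M * w) (Fin.castLE h (finProdFinEquiv (e, i)))))
            (fun i : Fin w => Z (Fin.natAdd N (Fin.natAdd R (finProdFinEquiv (e, i)))))) = true))) ?_ ?_
      · rw [Fintype.card_fin] at h1
        exact cmono _ _ _ _ h1 (by omega)
      · intro i
        exact cnot _ 0 _ (cvar _ _)
      · intro Z
        simp [hj]
    · have h1 := LVS_copy (R := R) hSEL f h e hf
      have h2 : (fun Z : Fin (N + (R + M * w)) → Bool =>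
          decide ((j ∈ K e ∧ ∀ i : Fin w, Z (Fin.natAdd N (Fin.natAdd R (finProdFinEquiv (e, i)))) = false) ∨
            (j ∉ K e ∧ f (Fin.append (fun i : Fin n => Z (Fin.castAdd (R + M * w) (Fin.castLE h (finProdFinEquiv (e, i)))))
            (fun i : Fin w => Z (Fin.natAdd N (Fin.natAdd R (finProdFinEquiv (e, i)))))) = true))) =
          fun Z : Fin (N + (R + M * w)) → Bool =>
            f (Fin.append (fun i : Fin n => Z (Fin.castAdd (R + M * w) (Fin.castLE h (finProdFinEquiv (e, i)))))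
            (fun i : Fin w => Z (Fin.natAdd N (Fin.natAdd R (finProdFinEquiv (e, i)))))) := by
        funext Z
        simp [hj]
      rw [h2]
      exact cmono _ _ _ _ h1 (by omega)
  -- all places
  have hC : ∀ j : Fin R, Size std (fun Z : Fin (N + (R + M * w)) → Bool =>
      decide (∀ e : Fin M, (j ∈ K e ∧ ∀ i : Fin w, Z (Fin.natAdd N (Fin.natAdd R (finProdFinEquiv (e, i)))) = false) ∨
      (j ∉ K e ∧ f (Fin.append (fun i : Fin n => Z (Fin.castAdd (R + M * w) (Fin.castLE h (finProdFinEquiv (e, i)))))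
        (fun i : Fin w => Z (Fin.natAdd N (Fin.natAdd R (finProdFinEquiv (e, i)))))) = true)))
      (M * ((w * 2 + 1 + (s + (n + w))) + 1) + 1) := by
    intro j
    have h1 := call (Fin M) (N + (R + M * w)) (w * 2 + 1 + (s + (n + w))) _
      (fun Z : Fin (N + (R + M * w)) → Bool =>
      decide (∀ e : Fin M, (j ∈ K e ∧ ∀ i : Fin w, Z (Fin.natAdd N (Fin.natAdd R (finProdFinEquiv (e, i)))) = false) ∨
      (j ∉ K e ∧ f (Fin.append (fun i : Fin n => Z (Fin.castAdd (R + M * w) (Fin.castLE h (finProdFinEquiv (e, i)))))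
        (fun i : Fin w => Z (Fin.natAdd N (Fin.natAdd R (finProdFinEquiv (e, i)))))) = true))) (hB j) ?_
    · rw [Fintype.card_fin] at h1
      exact h1
    · intro Z
      rw [decide_eq_true_eq]
      refine forall_congr' fun e => ?_
      rw [decide_eq_true_eq]
  -- the disjunction
  have hD := cex (Fin R) (N + (R + M * w)) _ _ (listV f N h K) (fun j => (cao _ _ _ _ _ (hA j) (hC j)).1) ?_
  · rw [Fintype.card_fin] at hD
    exact cmono _ _ _ _ hD (LVS_num n w M R N s Q hQ)
  · intro Z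
    unfold listV
    rw [decide_eq_true_eq]
    refine exists_congr fun j => ?_
    rw [Bool.and_eq_true, decide_eq_true_eq, decide_eq_true_eq]

end Pool.Agent.ISO
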